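import Pool.Agent.helper68.SF.SpecW

/-!
# sw:RB, bounds for the sum and its gradient
-/

set_option autoImplicit false

namespace SF

open MeasureTheory

theorem RB_c5_abs (F : ℝ → ℝ) (K : ℝ) (h : ∀ r, |F r| ≤ K) : |c5 F| ≤ 4 * K := by
  unfold c5
  have h1 := abs_le.1 (h (1 / 5))
  have h2 := abs_le.1 (h (2 / 5))
  have h3 := abs_le.1 (h (3 / 5))
  have h4 := abs_le.1 (h (4 / 5))
  rw [abs_le]
  constructor <;> linarith [h1.1, h1.2, h2.1, h2.2, h3.1, h3.2, h4.1, h4.2]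

theorem RB_sign_le (x : ℝ) : |Real.sign x| ≤ 1 := by
  rcases Real.sign_apply_eq x with h | h | h <;> rw [h] <;> simp

theorem RB_c5_congr (F G : ℝ → ℝ) (h : ∀ r, 0 < r → r < 1 → F r = G r) : c5 F = c5 G := by
  unfold c5
  rw [h (1 / 5) (by norm_num) (by norm_num), h (2 / 5) (by norm_num) (by norm_num),
    h (3 / 5) (by norm_num) (by norm_num), h (4 / 5) (by norm_num) (by norm_num)]

theorem RB_int_pos (y Q x : ℝ) (hQ : 0 ≤ Q) (a b : ℝ) (hab : a ≤ b) :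
    0 ≤ ∫ t in a..b, 3 / 2 * Q / ((x + t) ^ 2 + y ^ 2) := by
  apply intervalIntegral.integral_nonneg hab
  intro t _
  positivity

theorem RB_cont (y Q x : ℝ) (hy : 0 < y) :
    Continuous fun t : ℝ => 3 / 2 * Q / ((x + t) ^ 2 + y ^ 2) := by
  refine Continuous.div continuous_const (by fun_prop) fun t => ?_
  positivity

/-- one block without sign change -/
theorem RB_smooth (hC : C5A_stmt) (h0 h1 h0' h1' : ℝ → ℝ) (d0 : ∀ t, HasDerivAt h0 (h0' t) t)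
    (d1 : ∀ t, HasDerivAt h1 (h1' t) t) (c0 : Continuous h0') (c1 : Continuous h1')
    (y Q : ℝ) (hy : 0 < y) (hQ0 : ∀ t, |h0' t| ≤ Q / (t ^ 2 + y ^ 2))
    (hQ1 : ∀ t, |h1' t| ≤ Q / (t ^ 2 + y ^ 2)) (x a σ : ℝ) (hσ : |σ| ≤ 1) :
    |c5 (fun r => h0 (x + a + r) + 1 / 2 * σ * h1 (x + a + r))| ≤
      ∫ t in a..(a + 1), 3 / 2 * Q / ((x + t) ^ 2 + y ^ 2) := by
  have hd : ∀ t, HasDerivAt (fun t => h0 (x + t) + 1 / 2 * σ * h1 (x + t))
      (h0' (x + t) + 1 / 2 * σ * h1' (x + t)) t := by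
    intro t
    have e0 : HasDerivAt (fun t => h0 (x + t)) (h0' (x + t)) t := by
      have := HasDerivAt.comp_const_add x t (d0 (x + t))
      exact this
    have e1 : HasDerivAt (fun t => h1 (x + t)) (h1' (x + t)) t := by
      have := HasDerivAt.comp_const_add x t (d1 (x + t))
      exact this
    exact e0.add (e1.const_mul _)
  have hcont : Continuous (fun t => h0' (x + t) + 1 / 2 * σ * h1' (x + t)) := by fun_prop
  have key := hC (fun t => h0 (x + t) + 1 / 2 * σ * h1 (x + t))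
    (fun t => h0' (x + t) + 1 / 2 * σ * h1' (x + t)) a 0
    (continuous_iff_continuousAt.2 fun t => (hd t).continuousAt) (fun t _ => hd t)
    (hcont.intervalIntegrable _ _)
  have e : (fun r => h0 (x + a + r) + 1 / 2 * σ * h1 (x + a + r)) =
      fun r => (fun t => h0 (x + t) + 1 / 2 * σ * h1 (x + t)) (a + r) := by
    funext r
    simp only [add_assoc]
  rw [e]
  refine key.trans ?_
  apply intervalIntegral.integral_mono_on (by linarith) (hcont.abs.intervalIntegrable _ _)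
    ((RB_cont y Q x hy).intervalIntegrable _ _)
  intro t _
  have b0 := hQ0 (x + t)
  have b1 := hQ1 (x + t)
  have hnn : 0 ≤ Q / ((x + t) ^ 2 + y ^ 2) := (abs_nonneg _).trans b0
  calc |h0' (x + t) + 1 / 2 * σ * h1' (x + t)|
      ≤ |h0' (x + t)| + |1 / 2 * σ * h1' (x + t)| := abs_add_le _ _
    _ ≤ Q / ((x + t) ^ 2 + y ^ 2) + 1 / 2 * (Q / ((x + t) ^ 2 + y ^ 2)) := by
        refine add_le_add b0 ?_
        rw [abs_mul, abs_mul, abs_of_pos (by norm_num : (0 : ℝ) < 1 / 2), mul_assoc]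
        refine mul_le_mul_of_nonneg_left ?_ (by norm_num)
        calc |σ| * |h1' (x + t)| ≤ 1 * (Q / ((x + t) ^ 2 + y ^ 2)) :=
              mul_le_mul hσ b1 (abs_nonneg _) (by norm_num)
          _ = _ := one_mul _
    _ = 3 / 2 * Q / ((x + t) ^ 2 + y ^ 2) := by ring

/-- one block -/
theorem RB_block (hC : C5A_stmt) (h0 h1 h0' h1' : ℝ → ℝ) (d0 : ∀ t, HasDerivAt h0 (h0' t) t)
    (d1 : ∀ t, HasDerivAt h1 (h1' t) t) (c0 : Continuous h0') (c1 : Continuous h1')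
    (y P Q : ℝ) (hy : 0 < y) (_hP : 0 ≤ P) (hQ : 0 ≤ Q) (hP0 : ∀ t, |h0 t| ≤ P)
    (hP1 : ∀ t, |h1 t| ≤ P) (hQ0 : ∀ t, |h0' t| ≤ Q / (t ^ 2 + y ^ 2))
    (hQ1 : ∀ t, |h1' t| ≤ Q / (t ^ 2 + y ^ 2)) (x x0 : ℝ) (k : ℤ) :
    |c5 (fun r => h0 (x + k + r) + 1 / 2 * Real.sign (x0 + k + r) * h1 (x + k + r))| ≤
      (if k = ⌊-x0⌋ then 6 * P else 0) +
        ∫ t in (k : ℝ)..(k + 1), 3 / 2 * Q / ((x + t) ^ 2 + y ^ 2) := by
  have hI := RB_int_pos y Q x hQ (k : ℝ) (k + 1) (by linarith)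
  by_cases hk : k = ⌊-x0⌋
  · rw [if_pos hk]
    refine (RB_c5_abs _ (3 / 2 * P) fun r => ?_).trans (by linarith)
    calc |h0 (x + k + r) + 1 / 2 * Real.sign (x0 + k + r) * h1 (x + k + r)|
        ≤ |h0 (x + k + r)| + |1 / 2 * Real.sign (x0 + k + r) * h1 (x + k + r)| := abs_add_le _ _
      _ ≤ P + 1 / 2 * P := by
          refine add_le_add (hP0 _) ?_
          rw [abs_mul, abs_mul, abs_of_pos (by norm_num : (0 : ℝ) < 1 / 2), mul_assoc]
          refine mul_le_mul_of_nonneg_left ?_ (by norm_num)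
          calc |Real.sign (x0 + k + r)| * |h1 (x + k + r)| ≤ 1 * P :=
                mul_le_mul (RB_sign_le _) (hP1 _) (abs_nonneg _) (by norm_num)
            _ = _ := one_mul _
      _ = 3 / 2 * P := by ring
  · rw [if_neg hk, zero_add]
    rcases lt_or_gt_of_ne hk with hlt | hgt
    · have h1' : (k : ℝ) + 1 ≤ -x0 := by
        have : ((k + 1 : ℤ) : ℝ) ≤ (⌊-x0⌋ : ℝ) := by exact_mod_cast hlt
        push_cast at this
        exact this.trans (Int.floor_le _)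
      rw [RB_c5_congr _ (fun r => h0 (x + k + r) + 1 / 2 * (-1) * h1 (x + k + r)) ?_]
      · exact RB_smooth hC h0 h1 h0' _ d0 d1 c0 c1 y Q hy hQ0 hQ1 x k (-1) (by simp)
      · intro r _ hr1
        rw [Real.sign_of_neg (by linarith)]
    · have h1' : -x0 < (k : ℝ) := by
        have : ((⌊-x0⌋ + 1 : ℤ) : ℝ) ≤ (k : ℝ) := by exact_mod_cast hgt
        push_cast at this
        linarith [Int.lt_floor_add_one (-x0)]
      rw [RB_c5_congr _ (fun r => h0 (x + k + r) + 1 / 2 * 1 * h1 (x + k + r)) ?_]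
      · exact RB_smooth hC h0 h1 h0' _ d0 d1 c0 c1 y Q hy hQ0 hQ1 x k 1 (by simp)
      · intro r hr0 _
        rw [Real.sign_of_pos (by linarith)]

theorem RB_integral (y Q x : ℝ) (hy : 0 < y) :
    Integrable (fun t : ℝ => 3 / 2 * Q / ((x + t) ^ 2 + y ^ 2)) ∧
    ∫ t : ℝ, 3 / 2 * Q / ((x + t) ^ 2 + y ^ 2) = 3 / 2 * Real.pi * Q / y := by
  have e : (fun t : ℝ => 3 / 2 * Q / ((x + t) ^ 2 + y ^ 2)) =
      fun t : ℝ => (3 / 2 * Q / y ^ 2) * (fun u : ℝ => (fun v : ℝ => (1 + v ^ 2)⁻¹) (u / y)) (x + t) := by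
    funext t
    have : (0 : ℝ) < 1 + ((x + t) / y) ^ 2 := by positivity
    field_simp
    ring
  have i0 : Integrable (fun u : ℝ => (fun v : ℝ => (1 + v ^ 2)⁻¹) (u / y)) :=
    integrable_inv_one_add_sq.comp_div hy.ne'
  rw [e]
  constructor
  · exact (i0.comp_add_left x).const_mul _
  · have h1 := Measure.integral_comp_div (fun v : ℝ => (1 + v ^ 2)⁻¹) y
    rw [integral_univ_inv_one_add_sq, abs_of_pos hy, smul_eq_mul] at h1
    rw [integral_const_mul, integral_add_left_eq_self (fun u : ℝ => (fun v : ℝ => (1 + v ^ 2)⁻¹) (u / y)) x,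
      h1]
    field_simp

theorem RB_sum (hC : C5A_stmt) (h0 h1 h0' h1' : ℝ → ℝ) (d0 : ∀ t, HasDerivAt h0 (h0' t) t)
    (d1 : ∀ t, HasDerivAt h1 (h1' t) t) (c0 : Continuous h0') (c1 : Continuous h1')
    (y P Q : ℝ) (hy : 0 < y) (hP : 0 ≤ P) (hQ : 0 ≤ Q) (hP0 : ∀ t, |h0 t| ≤ P)
    (hP1 : ∀ t, |h1 t| ≤ P) (hQ0 : ∀ t, |h0' t| ≤ Q / (t ^ 2 + y ^ 2))
    (hQ1 : ∀ t, |h1' t| ≤ Q / (t ^ 2 + y ^ 2)) (x x0 : ℝ) :
    |∑' k : ℤ, c5 (fun r => h0 (x + k + r) + 1 / 2 * Real.sign (x0 + k + r) * h1 (x + k + r))| ≤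
      6 * P + 3 / 2 * Real.pi * Q / y := by
  obtain ⟨hint, hval⟩ := RB_integral y Q x hy
  have s1 : HasSum (fun k : ℤ => if k = ⌊-x0⌋ then 6 * P else 0) (6 * P) :=
    hasSum_ite_eq _ _
  have s2 := hint.hasSum_intervalIntegral 0
  simp only [zero_add] at s2
  rw [hval] at s2
  rw [← Real.norm_eq_abs]
  refine tsum_of_norm_bounded (s1.add s2) fun k => ?_
  rw [Real.norm_eq_abs]
  exact RB_block hC h0 h1 h0' h1' d0 d1 c0 c1 y P Q hy hP hQ hP0 hP1 hQ0 hQ1 x x0 k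

theorem RB_cont_of_Sm (f : ℝ → ℝ → ℝ → ℝ) (h : Sm f) (s y : ℝ) (hy : 0 < y) :
    Continuous fun t => f s t y := by
  have h1 : ContinuousOn (fun p : ℝ × ℝ × ℝ => f p.1 p.2.1 p.2.2) {p | 0 < p.2.2} := h.continuousOn
  exact h1.comp_continuous (f := fun t : ℝ => ((s, t, y) : ℝ × ℝ × ℝ)) (by fun_prop) fun t => hy

theorem RB_c5_deriv (F : ℝ → ℝ → ℝ) (F' : ℝ → ℝ) (x : ℝ)
    (h : ∀ r, HasDerivAt (fun t => F t r) (F' r) x) :
    HasDerivAt (fun t => c5 (F t)) (c5 F') x := by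
  unfold c5
  exact (((h _).sub (h _)).sub (h _)).add (h _)

theorem RB_r (x y : ℝ) (hy : 0 < y) : y ≤ √(x ^ 2 + y ^ 2) ∧ √(x ^ 2 + y ^ 2) ^ 2 = x ^ 2 + y ^ 2 :=
  ⟨Real.le_sqrt_of_sq_le (by nlinarith [sq_nonneg x]), Real.sq_sqrt (by positivity)⟩

theorem RB (hBS : BS_stmt) (hK1 : K1_stmt) (hB01 : B01_stmt) (hKB : KB_stmt) (hC5A : C5A_stmt)
    (hRA : RA_stmt) : RB_stmt := by
  obtain ⟨C, hC, hKB⟩ := hKB
  refine ⟨11 * C, by positivity, fun g B hg hB s x y x0 hy => ?_⟩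
  have hB0 : 0 ≤ B := (abs_nonneg _).trans (hB 0 (by norm_num) 0)
  intro M
  obtain ⟨M0, hM0⟩ : ∃ M0, M0 = C * B * Real.exp s * (1 + Real.exp (2 * s) / (25 * y)) ^ 4 :=
    ⟨_, rfl⟩
  have hM : M = 11 * M0 := by
    simp only [M, hM0]; ring
  have hM0n : 0 ≤ M0 := by rw [hM0]; positivity
  have hKB' : ∀ f, (f = k1 g ∨ f = b1 g) → ∀ x : ℝ,
      |f s x y| ≤ M0 / √(x ^ 2 + y ^ 2) ∧ |dX f s x y| ≤ M0 / √(x ^ 2 + y ^ 2) ^ 2 ∧
      |dX (dX f) s x y| ≤ M0 / √(x ^ 2 + y ^ 2) ^ 3 ∧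
      |dY f s x y| ≤ M0 / (y * √(x ^ 2 + y ^ 2)) ∧
      |dX (dY f) s x y| ≤ M0 / (y * √(x ^ 2 + y ^ 2) ^ 2) := by
    intro f hf x
    rw [hM0]
    exact hKB g B hg hB f hf s x y hy
  have hpi : Real.pi ≤ 315 / 100 := by
    have := Real.pi_lt_d2
    linarith
  have hSm : ∀ f, (f = k1 g ∨ f = b1 g) → Sm f := by
    rintro f (rfl | rfl)
    · exact (hK1 g hg).1
    · exact (hB01 g hg).2.1
  -- the five facts for both kernels
  have A0 : ∀ f, (f = k1 g ∨ f = b1 g) → ∀ t : ℝ, HasDerivAt (fun t => f s t y) (dX f s t y) t :=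
    fun f hf t => ((hBS f (hSm f hf)).2.2.2 s t y hy).2.1
  have A1 : ∀ f, (f = k1 g ∨ f = b1 g) → ∀ t : ℝ,
      HasDerivAt (fun t => dX f s t y) (dX (dX f) s t y) t :=
    fun f hf t => ((hBS (dX f) (hBS f (hSm f hf)).2.1).2.2.2 s t y hy).2.1
  have A2 : ∀ f, (f = k1 g ∨ f = b1 g) → ∀ t : ℝ,
      HasDerivAt (fun t => dY f s t y) (dX (dY f) s t y) t :=
    fun f hf t => ((hBS (dY f) (hBS f (hSm f hf)).2.2.1).2.2.2 s t y hy).2.1
  have A3 : ∀ f, (f = k1 g ∨ f = b1 g) → ∀ t : ℝ, HasDerivAt (fun u => f s t u) (dY f s t y) y :=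
    fun f hf t => ((hBS f (hSm f hf)).2.2.2 s t y hy).2.2.1
  have C0 : ∀ f, (f = k1 g ∨ f = b1 g) → Continuous (fun t => dX f s t y) :=
    fun f hf => RB_cont_of_Sm _ (hBS f (hSm f hf)).2.1 s y hy
  have C1 : ∀ f, (f = k1 g ∨ f = b1 g) → Continuous (fun t => dX (dX f) s t y) :=
    fun f hf => RB_cont_of_Sm _ (hBS (dX f) (hBS f (hSm f hf)).2.1).2.1 s y hy
  have C2 : ∀ f, (f = k1 g ∨ f = b1 g) → Continuous (fun t => dX (dY f) s t y) :=
    fun f hf => RB_cont_of_Sm _ (hBS (dY f) (hBS f (hSm f hf)).2.2.1).2.1 s y hy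
  have B0 : ∀ f, (f = k1 g ∨ f = b1 g) → ∀ t : ℝ, |f s t y| ≤ M0 / y := by
    intro f hf t
    refine (hKB' f hf t).1.trans ?_
    exact div_le_div_of_nonneg_left hM0n hy (RB_r t y hy).1
  have B1 : ∀ f, (f = k1 g ∨ f = b1 g) → ∀ t : ℝ, |dX f s t y| ≤ M0 / (t ^ 2 + y ^ 2) := by
    intro f hf t
    have := (hKB' f hf t).2.1
    rwa [(RB_r t y hy).2] at this
  have B1' : ∀ f, (f = k1 g ∨ f = b1 g) → ∀ t : ℝ, |dX f s t y| ≤ M0 / y ^ 2 := by
    intro f hf t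
    refine (B1 f hf t).trans ?_
    exact div_le_div_of_nonneg_left hM0n (by positivity) (by nlinarith [sq_nonneg t])
  have B2 : ∀ f, (f = k1 g ∨ f = b1 g) → ∀ t : ℝ,
      |dX (dX f) s t y| ≤ M0 / y / (t ^ 2 + y ^ 2) := by
    intro f hf t
    refine (hKB' f hf t).2.2.1.trans ?_
    rw [div_div]
    refine div_le_div_of_nonneg_left hM0n (by positivity) ?_
    obtain ⟨h1, h2⟩ := RB_r t y hy
    have h3 : √(t ^ 2 + y ^ 2) ^ 3 = √(t ^ 2 + y ^ 2) * √(t ^ 2 + y ^ 2) ^ 2 := by ring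
    rw [h3, h2]
    exact mul_le_mul_of_nonneg_right h1 (by positivity)
  have B3 : ∀ f, (f = k1 g ∨ f = b1 g) → ∀ t : ℝ, |dY f s t y| ≤ M0 / y ^ 2 := by
    intro f hf t
    refine (hKB' f hf t).2.2.2.1.trans ?_
    refine div_le_div_of_nonneg_left hM0n (by positivity) ?_
    calc y ^ 2 = y * y := sq y
      _ ≤ y * √(t ^ 2 + y ^ 2) := mul_le_mul_of_nonneg_left (RB_r t y hy).1 hy.le
  have B4 : ∀ f, (f = k1 g ∨ f = b1 g) → ∀ t : ℝ,
      |dX (dY f) s t y| ≤ M0 / y / (t ^ 2 + y ^ 2) := by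
    intro f hf t
    have := (hKB' f hf t).2.2.2.2
    rwa [(RB_r t y hy).2, ← div_div] at this
  have fin : ∀ P Q : ℝ, Q = P * y → 0 ≤ P → 6 * P + 3 / 2 * Real.pi * Q / y ≤ 11 * P := by
    intro P Q hQ hP
    have : 3 / 2 * Real.pi * Q / y = 3 / 2 * Real.pi * P := by
      rw [hQ]; field_simp
    rw [this]
    nlinarith
  have hk1 : k1 g = k1 g ∨ k1 g = b1 g := Or.inl rfl
  have hb1 : b1 g = k1 g ∨ b1 g = b1 g := Or.inr rfl
  obtain ⟨-, -, hR⟩ := hRA g hg x0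
  obtain ⟨-, -, rX, rY, -, -⟩ := hR s x y hy
  refine ⟨?_, ?_, ?_⟩
  · have key := RB_sum hC5A (fun t => k1 g s t y) (fun t => b1 g s t y) (fun t => dX (k1 g) s t y)
      (fun t => dX (b1 g) s t y) (A0 _ hk1) (A0 _ hb1) (C0 _ hk1) (C0 _ hb1) y (M0 / y) M0 hy
      (by positivity) hM0n (B0 _ hk1) (B0 _ hb1) (B1 _ hk1) (B1 _ hb1) x x0
    unfold RR Bk
    rw [hM]
    refine key.trans ((fin (M0 / y) M0 (by field_simp) (by positivity)).trans (le_of_eq (by ring)))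
  · have key := RB_sum hC5A (fun t => dX (k1 g) s t y) (fun t => dX (b1 g) s t y)
      (fun t => dX (dX (k1 g)) s t y) (fun t => dX (dX (b1 g)) s t y) (A1 _ hk1) (A1 _ hb1)
      (C1 _ hk1) (C1 _ hb1) y (M0 / y ^ 2) (M0 / y) hy (by positivity) (by positivity) (B1' _ hk1)
      (B1' _ hb1) (B2 _ hk1) (B2 _ hb1) x x0
    rw [rX, hM]
    have e : ∀ k : ℤ, dX (fun s x y => Bk g s x y x0 k) s x y =
        c5 (fun r => dX (k1 g) s (x + k + r) y +
          1 / 2 * Real.sign (x0 + k + r) * dX (b1 g) s (x + k + r) y) := by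
      intro k
      unfold dX Bk
      refine (RB_c5_deriv (fun t r => k1 g s (t + k + r) y +
        1 / 2 * Real.sign (x0 + k + r) * b1 g s (t + k + r) y) _ x fun r => ?_).deriv
      have e1 : HasDerivAt (fun t : ℝ => t + k + r) 1 x := by
        simpa using ((hasDerivAt_id x).add_const (k : ℝ)).add_const r
      have e2 := (A0 _ hk1 (x + k + r)).comp x e1
      have e3 := (A0 _ hb1 (x + k + r)).comp x e1
      rw [mul_one] at e2 e3
      exact e2.add (e3.const_mul _)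
    simp only [e]
    refine key.trans ((fin (M0 / y ^ 2) (M0 / y) (by field_simp) (by positivity)).trans
      (le_of_eq (by ring)))
  · have key := RB_sum hC5A (fun t => dY (k1 g) s t y) (fun t => dY (b1 g) s t y)
      (fun t => dX (dY (k1 g)) s t y) (fun t => dX (dY (b1 g)) s t y) (A2 _ hk1) (A2 _ hb1)
      (C2 _ hk1) (C2 _ hb1) y (M0 / y ^ 2) (M0 / y) hy (by positivity) (by positivity) (B3 _ hk1)
      (B3 _ hb1) (B4 _ hk1) (B4 _ hb1) x x0
    rw [rY, hM]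
    have e : ∀ k : ℤ, dY (fun s x y => Bk g s x y x0 k) s x y =
        c5 (fun r => dY (k1 g) s (x + k + r) y +
          1 / 2 * Real.sign (x0 + k + r) * dY (b1 g) s (x + k + r) y) := by
      intro k
      unfold dY Bk
      refine (RB_c5_deriv (fun u r => k1 g s (x + k + r) u +
        1 / 2 * Real.sign (x0 + k + r) * b1 g s (x + k + r) u) _ y fun r => ?_).deriv
      exact (A3 _ hk1 (x + k + r)).add ((A3 _ hb1 (x + k + r)).const_mul _)
    simp only [e]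
    refine key.trans ((fin (M0 / y ^ 2) (M0 / y) (by field_simp) (by positivity)).trans
      (le_of_eq (by ring)))

end SF
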